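import Pool.Agent.X171.EL.Stm

set_option autoImplicit false

namespace Pool.Agent.X269.EL

open MeasureTheory Set Filter Topology Pool.Agent.X171.ED Pool.Agent.X171.EL
open scoped ENNReal

/-- Binary digits. -/
noncomputable def D (t : ℝ) (i : ℕ) : Bool := decide (Odd (⌈(2 : ℝ) ^ (i + 1) * t⌉ - 1))

theorem ceil_two (x : ℝ) : ⌈2 * x⌉ = 2 * ⌈x⌉ ∨ ⌈2 * x⌉ = 2 * ⌈x⌉ - 1 := by
  have h1 := Int.le_ceil x
  have h2 := Int.ceil_lt_add_one x
  have h3 := Int.le_ceil (2 * x)
  have h4 := Int.ceil_lt_add_one (2 * x)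
  have h5 : ((⌈2 * x⌉ : ℤ) : ℝ) < 2 * (⌈x⌉ : ℤ) + 1 := by linarith
  have h6 : (2 * (⌈x⌉ : ℤ) - 2 : ℝ) < (⌈2 * x⌉ : ℤ) := by linarith
  have h5' : ⌈2 * x⌉ < 2 * ⌈x⌉ + 1 := by exact_mod_cast h5
  have h6' : 2 * ⌈x⌉ - 2 < ⌈2 * x⌉ := by exact_mod_cast h6
  omega

theorem ceil_succ (t : ℝ) (i : ℕ) : ⌈(2 : ℝ) ^ (i + 1) * t⌉ - 1
    = 2 * (⌈(2 : ℝ) ^ i * t⌉ - 1) + (if D t i = true then 1 else 0) := by
  have h0 : (2 : ℝ) ^ (i + 1) * t = 2 * ((2 : ℝ) ^ i * t) := by ring
  have h1 := ceil_two ((2 : ℝ) ^ i * t)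
  rw [← h0] at h1
  have hD : (D t i = true) ↔ (⌈(2 : ℝ) ^ (i + 1) * t⌉ - 1) % 2 = 1 := by
    unfold D
    rw [decide_eq_true_eq, Int.odd_iff]
  by_cases h : D t i = true
  · rw [if_pos h]
    rw [hD] at h
    omega
  · rw [if_neg h]
    rw [hD] at h
    omega

theorem D_measurable : Measurable D := by
  refine measurable_pi_iff.2 (fun i => ?_)
  have h1 : Measurable (fun z : ℤ => decide (Odd (z - 1))) := Measurable.of_discrete
  exact h1.comp (Int.measurable_ceil.comp (measurable_const.mul measurable_id))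

theorem cyl (n : ℕ) (b : ℕ → Bool) : ∃ m : ℕ, m < 2 ^ n ∧ ∀ t ∈ Ioc (0 : ℝ) 1,
    ((∀ i < n, D t i = b i) ↔ ⌈(2 : ℝ) ^ n * t⌉ - 1 = m) := by
  induction n with
  | zero =>
    refine ⟨0, by simp, fun t ht => ?_⟩
    simp only [not_lt_zero, false_imp_iff, implies_true, true_iff, pow_zero, one_mul]
    have : ⌈t⌉ = 1 := by
      rw [Int.ceil_eq_iff]
      constructor
      · have := ht.1
        push_cast; linarith
      · have := ht.2
        push_cast; exact this
    rw [this]; simp
  | succ n ih =>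
    obtain ⟨m, hm, h⟩ := ih
    refine ⟨2 * m + (if b n = true then 1 else 0), ?_, fun t ht => ?_⟩
    · rw [pow_succ]; split_ifs <;> omega
    · have h1 := h t ht
      have h2 := ceil_succ t n
      constructor
      · intro h3
        have h4 := h1.1 (fun i hi => h3 i (by omega))
        rw [h2, h4, h3 n (by omega)]
        push_cast
        split_ifs <;> ring
      · intro h3
        rw [h2] at h3
        push_cast at h3
        have h5 : D t n = b n := by
          cases hd : D t n <;> cases hb : b n <;> simp only [hd, hb] at h3 ⊢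
          · simp at h3; omega
          · simp at h3; omega
        have h6 : ⌈(2 : ℝ) ^ n * t⌉ - 1 = m := by
          rw [h5] at h3
          split_ifs at h3 <;> omega
        intro i hi
        rcases Nat.lt_succ_iff_lt_or_eq.1 hi with h7 | h7
        · exact h1.2 h6 i h7
        · rw [h7]; exact h5

theorem vol (n : ℕ) (b : ℕ → Bool) :
    LpI.μ {t | ∀ i < n, D t i = b i} = (2⁻¹ : ℝ≥0∞) ^ n := by
  obtain ⟨m, hm, h⟩ := cyl n b
  have hmeas : MeasurableSet {t | ∀ i < n, D t i = b i} := by
    have : {t | ∀ i < n, D t i = b i} = D ⁻¹' (⋂ i, ⋂ (_ : i < n), (fun ω : ℕ → Bool => ω i) ⁻¹' {b i}) := by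
      ext t; simp
    rw [this]
    refine D_measurable (MeasurableSet.iInter fun i => MeasurableSet.iInter fun _ => ?_)
    exact measurable_pi_apply i (measurableSet_singleton _)
  rw [Measure.restrict_apply hmeas]
  have h2 : (0 : ℝ) < 2 ^ n := by positivity
  have h3 : {t | ∀ i < n, D t i = b i} ∩ Ioc (0 : ℝ) 1
      = Ioc ((m : ℝ) / 2 ^ n) (((m : ℝ) + 1) / 2 ^ n) := by
    ext t
    constructor
    · rintro ⟨h4, h5⟩
      have h6 := (h t h5).1 h4
      have h7 : ⌈(2 : ℝ) ^ n * t⌉ = (m : ℤ) + 1 := by omega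
      rw [Int.ceil_eq_iff] at h7
      push_cast at h7
      constructor
      · rw [div_lt_iff₀ h2]; linarith [h7.1]
      · rw [le_div_iff₀ h2]; linarith [h7.2]
    · rintro ⟨h4, h5⟩
      rw [div_lt_iff₀ h2] at h4
      rw [le_div_iff₀ h2] at h5
      have hm' : ((m : ℝ) + 1) ≤ 2 ^ n := by exact_mod_cast hm
      have h8 : t ∈ Ioc (0 : ℝ) 1 := by
        constructor
        · by_contra h9
          push Not at h9
          have : t * 2 ^ n ≤ 0 := mul_nonpos_of_nonpos_of_nonneg h9 h2.le
          have : (0 : ℝ) ≤ m := Nat.cast_nonneg m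
          linarith
        · by_contra h9
          push Not at h9
          nlinarith
      refine ⟨(h t h8).2 ?_, h8⟩
      have h7 : ⌈(2 : ℝ) ^ n * t⌉ = (m : ℤ) + 1 := by
        rw [Int.ceil_eq_iff]
        push_cast
        constructor <;> linarith
      omega
  rw [h3, Real.volume_Ioc]
  rw [← ENNReal.inv_pow, show ((m : ℝ) + 1) / 2 ^ n - (m : ℝ) / 2 ^ n = ((2 : ℝ) ^ n)⁻¹ by
    field_simp; ring]
  rw [ENNReal.ofReal_inv_of_pos h2, ENNReal.ofReal_pow (by norm_num)]
  norm_num

theorem coin_single (b : Bool) : coin {b} = 2⁻¹ := by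
  unfold coin
  rw [PMF.toMeasure_apply_singleton _ _ (measurableSet_singleton b), PMF.uniformOfFintype_apply]
  simp

theorem map_fin (n : ℕ) : (LpI.μ).map (fun (t : ℝ) (i : Fin n) => D t i)
    = Measure.pi (fun _ : Fin n => coin) := by
  have hm : Measurable (fun (t : ℝ) (i : Fin n) => D t i) :=
    measurable_pi_iff.2 (fun i => (measurable_pi_iff.1 D_measurable) i)
  refine Measure.ext_of_singleton (fun f => ?_)
  rw [Measure.pi_singleton, Measure.map_apply hm (measurableSet_singleton f)]
  have h1 : (fun (t : ℝ) (i : Fin n) => D t i) ⁻¹' {f}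
      = {t | ∀ i < n, D t i = (fun j => if h : j < n then f ⟨j, h⟩ else false) i} := by
    ext t
    constructor
    · intro h i hi
      have h2 := congrFun h ⟨i, hi⟩
      simp only [hi, dif_pos]
      exact h2
    · intro h
      funext i
      have h2 := h i i.2
      simp only [i.2, dif_pos] at h2
      exact h2
  rw [h1, vol, Finset.prod_congr rfl (fun i _ => coin_single (f i))]
  simp

theorem D_preserving : MeasurePreserving D LpI.μ Pr := by
  refine ⟨D_measurable, ?_⟩
  refine Measure.eq_infinitePi _ (fun s t ht => ?_)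
  have hs : MeasurableSet (Set.pi (s : Set ℕ) t) :=
    MeasurableSet.pi s.countable_toSet (fun i _ => ht i)
  rw [Measure.map_apply D_measurable hs]
  set n := s.sup id + 1 with hn
  have hsn : ∀ i ∈ s, i < n := fun i hi => by
    have := Finset.le_sup (f := id) hi
    simp only [id] at this
    omega
  have hm : Measurable (fun (t : ℝ) (i : Fin n) => D t i) :=
    measurable_pi_iff.2 (fun i => (measurable_pi_iff.1 D_measurable) i)
  have h1 : D ⁻¹' (Set.pi (s : Set ℕ) t) = (fun (t : ℝ) (i : Fin n) => D t i) ⁻¹'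
      (Set.pi univ (fun i : Fin n => if (i : ℕ) ∈ s then t i else univ)) := by
    ext u
    simp only [mem_preimage, Set.mem_pi, Finset.mem_coe, mem_univ, forall_const]
    constructor
    · intro h i
      split_ifs with hi
      · exact h i hi
      · trivial
    · intro h i hi
      have := h ⟨i, hsn i hi⟩
      simp only [hi, if_true] at this
      exact this
  rw [h1, ← Measure.map_apply hm, map_fin, Measure.pi_pi]
  · rw [Fin.prod_univ_eq_prod_range (fun i => coin (if i ∈ s then t i else univ)) n]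
    rw [← Finset.prod_subset (s₁ := s) (fun i hi => Finset.mem_range.2 (hsn i hi))]
    · exact Finset.prod_congr rfl (fun i hi => by rw [if_pos hi])
    · intro i _ hi
      rw [if_neg hi]
      exact measure_univ
  · refine MeasurableSet.univ_pi (fun i => ?_)
    split_ifs
    · exact ht _
    · exact MeasurableSet.univ

/-- The number with given digits. -/
noncomputable def E (ω : Om) : ℝ := ∑' i, (if ω i = true then ((1 / 2 : ℝ)) ^ (i + 1) else 0)

theorem E_measurable : Measurable E := by
  have : Continuous E := by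
    unfold E
    refine continuous_tsum (u := fun i => (1 / 2 : ℝ) ^ (i + 1)) (fun i => ?_) ?_ ?_
    · have h1 : Continuous (fun b : Bool => if b = true then ((1 / 2 : ℝ)) ^ (i + 1) else 0) :=
        continuous_of_discreteTopology
      exact h1.comp (continuous_apply i)
    · exact (summable_nat_add_iff 1).2 (summable_geometric_of_lt_one (by norm_num) (by norm_num))
    · intro i ω
      split_ifs
      · rw [Real.norm_of_nonneg (by positivity)]
      · rw [norm_zero]; positivity
  exact this.measurable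

theorem part_sum (t : ℝ) (ht : t ∈ Ioc (0 : ℝ) 1) (n : ℕ) :
    ∑ i ∈ Finset.range n, (if D t i = true then ((1 / 2 : ℝ)) ^ (i + 1) else 0)
      = ((⌈(2 : ℝ) ^ n * t⌉ : ℝ) - 1) / 2 ^ n := by
  induction n with
  | zero =>
    have : ⌈t⌉ = 1 := by
      rw [Int.ceil_eq_iff]
      constructor
      · have := ht.1
        push_cast; linarith
      · have := ht.2
        push_cast; exact this
    simp [this]
  | succ n ih =>
    rw [Finset.sum_range_succ, ih]
    have h1 := ceil_succ t n
    have h2 : ((⌈(2 : ℝ) ^ (n + 1) * t⌉ : ℤ) : ℝ) - 1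
        = 2 * (((⌈(2 : ℝ) ^ n * t⌉ : ℤ) : ℝ) - 1) + (if D t n = true then 1 else 0) := by
      have := congrArg (fun z : ℤ => (z : ℝ)) h1
      push_cast at this
      exact this
    rw [h2]
    have h3 : (2 : ℝ) ^ n ≠ 0 := by positivity
    split_ifs
    · rw [pow_succ, one_div, inv_pow, pow_succ]
      field_simp
    · rw [pow_succ]
      field_simp
      ring

theorem E_D (t : ℝ) (ht : t ∈ Ioc (0 : ℝ) 1) : E (D t) = t := by
  unfold E
  refine HasSum.tsum_eq ?_
  rw [hasSum_iff_tendsto_nat_of_nonneg (fun i => by split_ifs <;> positivity)]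
  have h0 : Tendsto (fun n : ℕ => t - (1 / 2 : ℝ) ^ n) atTop (𝓝 (t - 0)) :=
    tendsto_const_nhds.sub (tendsto_pow_atTop_nhds_zero_of_lt_one (by norm_num) (by norm_num))
  rw [sub_zero] at h0
  refine tendsto_of_tendsto_of_tendsto_of_le_of_le h0 tendsto_const_nhds (fun n => ?_) (fun n => ?_)
  · simp only
    rw [part_sum t ht, le_div_iff₀ (by positivity), sub_mul, one_div, inv_pow,
      inv_mul_cancel₀ (by positivity)]
    have := Int.le_ceil ((2 : ℝ) ^ n * t)
    linarith
  · simp only
    rw [part_sum t ht, div_le_iff₀ (by positivity)]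
    have := Int.ceil_lt_add_one ((2 : ℝ) ^ n * t)
    linarith

theorem E_D_ae : E ∘ D =ᵐ[LpI.μ] id :=
  ae_restrict_of_forall_mem measurableSet_Ioc (fun t ht => E_D t ht)

theorem E_preserving : MeasurePreserving E Pr LpI.μ := by
  refine ⟨E_measurable, ?_⟩
  rw [← D_preserving.map_eq, Measure.map_map E_measurable D_measurable,
    Measure.map_congr E_D_ae, Measure.map_id]

theorem comp_comp (x : XX) : Lp.compMeasurePreserving D D_preserving
    (Lp.compMeasurePreserving E E_preserving x) = x := by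
  refine Lp.ext ?_
  refine (Lp.coeFn_compMeasurePreserving _ D_preserving).trans ?_
  have h1 := D_preserving.quasiMeasurePreserving.ae_eq_comp
    (Lp.coeFn_compMeasurePreserving x E_preserving)
  refine h1.trans ?_
  rw [Function.comp_assoc]
  filter_upwards [E_D_ae] with t ht
  simp only [Function.comp_apply] at ht ⊢
  rw [ht]
  rfl

theorem t_ISO : S_ISO := by
  let J' : X1 ≃ₗᵢ[ℝ] XX := LinearIsometryEquiv.ofSurjective
    (Lp.compMeasurePreservingₗᵢ ℝ D D_preserving) (fun x => ⟨_, comp_comp x⟩)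
  have hJ' : ∀ y : X1, J' y =ᵐ[LpI.μ] y ∘ D := fun y =>
    Lp.coeFn_compMeasurePreserving y D_preserving
  refine ⟨J'.symm, ?_, ?_⟩
  · rw [LinearIsometryEquiv.symm_apply_eq]
    refine Lp.ext ?_
    refine (Lp.coeFn_const _ _ _).trans ?_
    refine EventuallyEq.trans ?_ (hJ' _).symm
    refine EventuallyEq.trans ?_ (D_preserving.quasiMeasurePreserving.ae_eq_comp
      (Lp.coeFn_const _ _ _)).symm
    exact Filter.Eventually.of_forall (fun t => rfl)
  · intro x
    obtain ⟨y, rfl⟩ := J'.surjective x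
    rw [LinearIsometryEquiv.symm_apply_apply, integral_congr_ae (hJ' y)]
    have h2 := integral_map (μ := LpI.μ) D_measurable.aemeasurable (f := fun ω => y ω)
      (by rw [D_preserving.map_eq]; exact Lp.aestronglyMeasurable y)
    rw [D_preserving.map_eq] at h2
    exact h2

end Pool.Agent.X269.EL
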